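import Mathlib
import Pool.Agent.H.MP_51e3d2_lc.B

namespace Pool.Agent.Results.MP_d44404_lc.Dec

open Pool.Agent.H.MP_51e3d2_lc Pool.Agent.Lib.helper21.PR

/-- theorems obtained from `L` by modus ponens -/
inductive MP (L : Fm ℕ → Prop) : Fm ℕ → Prop
  | ax {φ} : L φ → MP L φ
  | mp {φ ψ} : MP L φ → MP L (.op 2 φ ψ) → MP L ψ

attribute [local irreducible] Primrec dg in
theorem result : ∃ f : ℕ × List (List (List ℕ)) × ℕ × ℕ → Bool, Computable f ∧ ∀ (A : Type) [HeytingAlgebra A] (n : ℕ) (e : A ≃ Fin n),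
    f (tab e) = true ↔ HSC (Adm (MP fun φ => ∀ v : ℕ → A, φ.ev (ops A) ⊥ v = ⊤)) := by
  have p := pr_TF (γ := ℕ × List (List (List ℕ)) × ℕ × ℕ) (N := (·.1)) (by fun_prop) (M := fun _ _ => true) (by fun_prop)
    (Bt := fun a x => decide (x = a.2.2.1)) (R := fun a k x y z => decide (z = tb a.2.1 k x y)) (by fun_prop) (by unfold tb; fun_prop)
  refine ⟨_, (pr_C (N := fun a => a.1 ^ a.1 ^ a.1) (by fun_prop) (M := fun a x => cd (TF a.1 (fun _ => true = true)
      (fun x => decide (x = a.2.2.1) = true) (fun k x y z => decide (z = tb a.2.1 k x y) = true) x)) p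
    (Tp := fun a x => cd (∀ i < a.1 ^ a.1, dg a.1 x i = a.2.2.2)) (Bt := fun a x => cd (∀ i < a.1 ^ a.1, dg a.1 x i = a.2.2.1))
      (R := fun a k x y z => cd (∀ i < a.1 ^ a.1, dg a.1 z i = tb a.2.1 k (dg a.1 x i) (dg a.1 y i))) (by fun_prop) (by unfold tb; fun_prop)
    (by fun_prop)).to_comp, fun A _ n e => ?_⟩
  have := Finite.of_equiv _ e.symm
  let F := {f : (Fin n → A) → A // ∃ u : Fm (Fin n), (fun s => u.ev (ops A) ⊥ s) = f}
  let o : Fin 3 → F → F → F := fun k f g => ⟨fun s => ops A k (f.1 s) (g.1 s), f.2.elim fun u a => g.2.elim fun w c => ⟨.op k u w, a ▸ c ▸ rfl⟩⟩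
  let b : F := ⟨fun _ => ⊥, .bot, rfl⟩
  let t : F := ⟨fun _ => ⊤, .op 2 .bot .bot, by simp [Fm.ev, ops]⟩
  have hM : ∀ x < n, True ↔ ∃ y, (e y).1 = x := fun x h => iff_of_true trivial ⟨e.symm ⟨x, h⟩, by simp⟩
  choose E e1 e2 using fun f : F => rp_ex (o := ops A) (b := ⊥) e.injective f.2.choose
  have e3 : ∀ f : F, ∀ i < n ^ n, ∀ s, (∀ j : Fin n, dg n i j = e (s j)) → dg n (E f) i = e (f.1 s) := fun f i a s c =>
    (e2 f i a s c).trans (by rw [congrFun f.2.choose_spec s])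
  have e4 : ∀ x < n ^ n ^ n, ∀ f : F, x = E f ↔ ∀ i < n ^ n, ∀ s, (∀ j : Fin n, dg n i j = e (s j)) → dg n x i = e (f.1 s) := fun x a f =>
    ⟨fun c => c ▸ e3 f, fun c => dg_inj a (e1 f) fun i d => ((val_iff hM i).1 (by simp)).elim fun s g => (c i d s g).trans (e3 f i d s g).symm⟩
  have e5 : ∀ (P : ℕ → Prop) i, P i ↔ ∀ s : Fin n → A, (∀ j : Fin n, dg n i j = e (s j)) → P i := fun P i =>
    ⟨fun a _ _ => a, fun a => ((val_iff hM i).1 (by simp)).elim a⟩
  have he : Function.Injective fun f => (⟨E f, e1 f⟩ : Fin _) := fun f g a => Subtype.ext (funext fun s => by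
    obtain ⟨i, c, d⟩ := as_ex (e := e) s
    exact e.injective (Fin.ext ((e3 f i c s d).symm.trans ((congrArg (dg n · i) (congrArg Fin.val a)).trans (e3 g i c s d)))))
  have ev : ∀ (v : ℕ → F) (φ : Fm ℕ) s, (φ.ev o b v).1 s = φ.ev (ops A) ⊥ fun i => (v i).1 s := fun v φ s => by
    induction φ with
    | op k x y h i => exact congrArg₂ (ops A k) h i
    | _ => rfl
  have mp : ∀ φ, MP (fun φ => ∀ v : ℕ → A, φ.ev (ops A) ⊥ v = ⊤) φ ↔ ∀ v : ℕ → A, φ.ev (ops A) ⊥ v = ⊤ := fun φ => ⟨fun h => by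
    induction h with
    | ax h => exact h
    | mp _ _ h k => exact fun v => by simpa only [Fm.ev, h v, show ops A 2 = (· ⇨ ·) from rfl, top_himp] using k v, fun h => .ax h⟩
  simp only [cd_true, decide_eq_true_eq]
  refine (cn_iff (o := o) (b := b) (t := t) he (fun x h => (tf_iff (o := ops A) e.injective hM (fun _ _ => .rfl) (fun k x y z _ => by rw [tb_tab]) h).trans
    ⟨fun ⟨u, a⟩ => ⟨⟨_, u, rfl⟩, ((e4 x h ⟨_, u, rfl⟩).2 a).symm⟩, fun ⟨f, a⟩ => ⟨_, (show E f = x from a) ▸ e2 f⟩⟩)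
    (fun x h => ((e4 x h b).trans (forall₂_congr fun i _ => (e5 (dg n x · = e ⊥) i).symm)).symm)
    (fun f => .trans (forall₂_congr fun i _ => e5 (dg n (E f) · = e ⊤) i) ((e4 _ (e1 f) t).symm.trans (Fin.val_inj (a := ⟨_, e1 f⟩) (b := ⟨_, e1 t⟩) |>.trans he.eq_iff)))
    fun k f g z h => ((e4 z h (o k f g)).trans (forall₂_congr fun i a => ((e5 (fun i => dg n z i = tb (tab e).2.1 k (dg n (E f) i) (dg n (E g) i)) i).trans
      (forall₂_congr fun s c => by rw [e3 f i a s c, e3 g i a s c, tb_tab])).symm)).symm).trans ((hsc_iff he).symm.trans (Eq.to_iff (congrArg _ ?_)))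
  funext Γ φ
  have et : ∀ (v : ℕ → F) (φ : Fm ℕ), φ.ev o b v = t ↔ ∀ s, φ.ev (ops A) ⊥ (fun i => (v i).1 s) = ⊤ := fun v φ =>
    Subtype.ext_iff.trans (funext_iff.trans (forall_congr' fun s => by rw [ev]))
  simp only [Adm, mp, Mat, et, ev_sub, eq_iff_iff]
  refine ⟨fun h σ a v => ?_, fun h v a s => ?_⟩
  · have := h (fun i => ⟨_, (σ i).sub fun j => .var (e (v j)), rfl⟩) (fun ψ c s => by simpa [ev_sub, Fm.ev] using a ψ c _) e.symm
    simpa [ev_sub, Fm.ev] using this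
  · choose u hu using fun i => (v i).2
    have := h (fun i => up (u i)) (fun ψ c w => by simpa [ev_up, ← hu] using a ψ c fun j => w j) fun j => if h : j < n then s ⟨j, h⟩ else ⊥
    simpa [ev_up, ← hu] using this

end Pool.Agent.Results.MP_d44404_lc.Dec
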